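import Pool.Agent.Helper18.RD.Stmts6

/-! Project RD, sixth form, row BDJ: on a large set of points few small primes of `q` are
unbalanced if enough primes do not divide `q`. -/

set_option autoImplicit false

namespace Pool.Agent.Helper18.RD

open Finset

namespace S45

theorem abs_jac (a : ℤ) (p : ℕ) : |jacobiSym a p| ≤ 1 := by
  rcases jacobiSym.trichotomy a p with h | h | h <;> rw [h] <;> norm_num

theorem jac_isSquare {X : ℤ} {p : ℕ} (hp : p.Prime) (hX : IsSquare X) (hd : ¬ (p : ℤ) ∣ X) :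
    jacobiSym X p = 1 := by
  obtain ⟨r, rfl⟩ := hX
  have hr : ¬ (p : ℤ) ∣ r := fun h => hd (h.mul_right r)
  rw [jacobiSym.mul_left, ← sq]
  apply jacobiSym.sq_one
  have h1 : Nat.Coprime p r.natAbs :=
    (Nat.Prime.coprime_iff_not_dvd hp).2 (fun h : p ∣ r.natAbs => hr (Int.natCast_dvd.2 h))
  have h2 : Nat.gcd r.natAbs (p : ℤ).natAbs = 1 := by
    rw [Int.natAbs_natCast]; exact h1.symm
  exact h2

theorem count_dvd (Q : Finset ℕ) (hQ : ∀ p ∈ Q, p.Prime) (X : ℤ) (hX : X ≠ 0) :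
    2 ^ (Q.filter (fun p : ℕ => (p : ℤ) ∣ X)).card ≤ X.natAbs := by
  classical
  have h0 : X.natAbs ≠ 0 := Int.natAbs_ne_zero.2 hX
  have hsub : Q.filter (fun p : ℕ => (p : ℤ) ∣ X) ⊆ X.natAbs.primeFactors := by
    intro p hp
    rw [mem_filter] at hp
    rw [Nat.mem_primeFactors]
    exact ⟨hQ p hp.1, Int.natCast_dvd.1 hp.2, h0⟩
  calc 2 ^ (Q.filter (fun p : ℕ => (p : ℤ) ∣ X)).card ≤ 2 ^ X.natAbs.primeFactors.card :=
        Nat.pow_le_pow_right (by norm_num) (card_le_card hsub)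
    _ = ∏ _p ∈ X.natAbs.primeFactors, 2 := by rw [prod_const]
    _ ≤ ∏ p ∈ X.natAbs.primeFactors, p :=
        prod_le_prod (fun _ _ => Nat.zero_le _)
          (fun p hp => (Nat.prime_of_mem_primeFactors hp).two_le)
    _ ≤ X.natAbs := Nat.le_of_dvd (Nat.pos_of_ne_zero h0) (Nat.prod_primeFactors_dvd _)

theorem count_real (Q : Finset ℕ) (hQ : ∀ p ∈ Q, p.Prime) (X : ℤ) (hX : X ≠ 0) (B : ℝ)
    (hB : |(X : ℝ)| ≤ B) :
    ((Q.filter (fun p : ℕ => (p : ℤ) ∣ X)).card : ℝ) * Real.log 2 ≤ Real.log B := by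
  have h1 := count_dvd Q hQ X hX
  have h2 : ((2 : ℝ) ^ (Q.filter (fun p : ℕ => (p : ℤ) ∣ X)).card) ≤ B := by
    have h3 : ((2 ^ (Q.filter (fun p : ℕ => (p : ℤ) ∣ X)).card : ℕ) : ℝ) ≤
        ((X.natAbs : ℕ) : ℝ) := by exact_mod_cast h1
    rw [Nat.cast_natAbs, Int.cast_abs] at h3
    push_cast at h3
    linarith
  have h3 := Real.log_le_log (by positivity) h2
  rwa [Real.log_pow] at h3

theorem final_ineq (C1 T E n s t L l y : ℝ) (hC1 : 0 < C1) (hT : 1 ≤ T) (hE : E = C1 * T)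
    (hn : 0 < n) (hs : 0 < s) (hL : 1 ≤ L) (hy : 1 ≤ y) (hl0 : 0 ≤ l)
    (ha : t * (n / 2) ^ 2 ≤ n * s ^ 2 + y * (n ^ 2 * s + l ^ 2 * s ^ 2))
    (hb : s ^ 2 ≤ E * t) (hc : 25 * E * y ≤ s) (hd : 25 * E * L ^ 2 * y ≤ n ^ 2)
    (hl : l ≤ 2 * L) (hf : n ≤ y) : False := by
  have hE0 : 0 < E := by rw [hE]; positivity
  have hL2 : 1 ≤ L ^ 2 := one_le_pow₀ hL
  have h1 : 25 * E ≤ n := by
    have h2 : 25 * E * n ≤ n * n := by
      calc 25 * E * n ≤ 25 * E * y := by gcongr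
        _ = 25 * E * 1 * y := by ring
        _ ≤ 25 * E * L ^ 2 * y := by gcongr
        _ ≤ n ^ 2 := hd
        _ = n * n := by ring
    exact le_of_mul_le_mul_right h2 hn
  have h2 : s ^ 2 * (n / 2) ^ 2 ≤ E * (n * s ^ 2 + y * (n ^ 2 * s + l ^ 2 * s ^ 2)) := by
    calc s ^ 2 * (n / 2) ^ 2 ≤ E * t * (n / 2) ^ 2 := by gcongr
      _ = E * (t * (n / 2) ^ 2) := by ring
      _ ≤ _ := by gcongr
  have h3 : 25 * (E * (n * s ^ 2)) ≤ n ^ 2 * s ^ 2 := by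
    calc 25 * (E * (n * s ^ 2)) = (25 * E) * (n * s ^ 2) := by ring
      _ ≤ n * (n * s ^ 2) := by gcongr
      _ = _ := by ring
  have h4 : 25 * (E * (y * (n ^ 2 * s))) ≤ n ^ 2 * s ^ 2 := by
    calc 25 * (E * (y * (n ^ 2 * s))) = (25 * E * y) * (n ^ 2 * s) := by ring
      _ ≤ s * (n ^ 2 * s) := by gcongr
      _ = _ := by ring
  have h5 : 25 * (E * (y * (l ^ 2 * s ^ 2))) ≤ 4 * (n ^ 2 * s ^ 2) := by
    calc 25 * (E * (y * (l ^ 2 * s ^ 2))) ≤ 25 * (E * (y * ((2 * L) ^ 2 * s ^ 2))) := by gcongr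
      _ = 4 * ((25 * E * L ^ 2 * y) * s ^ 2) := by ring
      _ ≤ 4 * (n ^ 2 * s ^ 2) := by gcongr
  have h6 : 0 < n ^ 2 * s ^ 2 := by positivity
  nlinarith [h2, h3, h4, h5, h6]

end S45

open S45

theorem st_BDJ (h1 : ST_MO1) (h2 : ST_ENE) (h3 : ST_ENP) (h4 : ST_SMO) : ST_BDJ := by
  classical
  intro K hK
  obtain ⟨C1, hC1, hE⟩ := h2 K hK
  refine ⟨25 * C1 + 2400, by linarith, ?_⟩
  intro N q P y D S J U e c d k w m hN hq hy hD hDat hDN hJS hU hbal hPD hP hJ hNP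
  obtain ⟨T, hT⟩ : ∃ T : ℝ, T = D ^ (2 * K) := ⟨_, rfl⟩
  have hT1 : 1 ≤ T := by rw [hT]; exact one_le_pow₀ hD
  rw [← hT] at hP hJ hNP
  have hNr : (1 : ℝ) ≤ N := by exact_mod_cast hN
  have hyr : (1 : ℝ) ≤ y := by exact_mod_cast hy
  have hL0 : 0 ≤ Real.log N := Real.log_natCast_nonneg N
  have hTy : (1 : ℝ) ≤ T * y := one_le_mul_of_one_le_of_one_le hT1 hyr
  have hJ16 : 16 ≤ J.card := by
    have h5 : (16 : ℝ) ≤ J.card := by
      calc (16 : ℝ) ≤ (25 * C1 + 2400) * 1 := by linarith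
        _ ≤ (25 * C1 + 2400) * (T * y) := by gcongr
        _ = (25 * C1 + 2400) * T * y := by ring
        _ ≤ J.card := hJ
    exact_mod_cast h5
  have hJne : J.Nonempty := card_pos.1 (by omega)
  have hd : ∀ n ∈ J, ∀ n' ∈ J, n ≠ n' → d n n' ≠ 0 ∧ |d n n'| ≤ 2 * N := by
    intro n hn n' hn' hne
    have hcd := hDat.cd n (hJS hn) n' (hJS hn') hne
    have hnN : n < N := mem_range.1 (hDat.sub (hJS hn))
    have hn'N : n' < N := mem_range.1 (hDat.sub (hJS hn'))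
    have hne' : ((n : ℤ) - n') ≠ 0 := sub_ne_zero.2 (by exact_mod_cast hne)
    have hk : k ≠ 0 := by rcases hDat.kap with h | h <;> rw [h] <;> norm_num
    have hk2 : |k| ≤ 2 := by rcases hDat.kap with h | h <;> rw [h] <;> norm_num
    have hprod : c n n' * d n n' ≠ 0 := by rw [hcd]; exact mul_ne_zero hk hne'
    have hc0 : c n n' ≠ 0 := left_ne_zero_of_mul hprod
    have hd0 : d n n' ≠ 0 := right_ne_zero_of_mul hprod
    refine ⟨hd0, ?_⟩
    have h5 : |c n n'| * |d n n'| = |k| * |(n : ℤ) - n'| := by rw [← abs_mul, ← abs_mul, hcd]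
    have h6 : 1 ≤ |c n n'| := Int.one_le_abs hc0
    have h7 : |(n : ℤ) - n'| ≤ N := by rw [abs_le]; constructor <;> omega
    calc |d n n'| ≤ |c n n'| * |d n n'| := le_mul_of_one_le_left (abs_nonneg _) h6
      _ = |k| * |(n : ℤ) - n'| := h5
      _ ≤ 2 * N := mul_le_mul hk2 h7 (abs_nonneg _) (by norm_num)
  have hU1 : ∀ p ∈ U, (J.card : ℤ) ^ 4 ≤ 4 * ∑ t ∈ T4 J, jacobiSym (cyc d t) p := by
    intro p hp
    have hpp : p ∈ OP q := (mem_filter.1 (hU hp)).1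
    exact h1 N q p S J e c d k w hDat hJS hJ16 hpp (hbal p hp)
  have hU2 : ∀ p ∈ U, p.Prime ∧ p ≠ 2 ∧ p ≤ P := by
    intro p hp
    have h := hU hp
    simp only [PP, OP, mem_filter, mem_erase] at h
    exact ⟨Nat.prime_of_mem_primeFactors h.1.2, h.1.1, h.2⟩
  have hP' : C1 * (N : ℝ) ^ 8 * D ^ (2 * K) ≤ (P : ℝ) ^ (2 * K) := by
    rw [← hT]
    refine le_trans ?_ hP
    have h5 : 0 ≤ (N : ℝ) ^ 8 * T := by positivity
    nlinarith
  have hM2 := hE N P D J U d hN hD hJne hd hU2 hPD hP' hU1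
  rw [← hT] at hM2
  obtain ⟨E, hEdef⟩ : ∃ E : ℝ, E = C1 * T := ⟨_, rfl⟩
  rw [← hEdef] at hM2
  have hE0 : 0 < E := by rw [hEdef]; positivity
  obtain ⟨x, hx, y0, hy0, B, hxy, hB0, hB1, hH⟩ := h3 N J d E hN hE0 hJne hd hM2
  obtain ⟨X, hX⟩ : ∃ X : ℕ × ℕ → ℤ, X = fun z => d z.1 z.2 * d z.1 y0 * d x z.2 * d x y0 * B :=
    ⟨_, rfl⟩
  obtain ⟨H, hHdef⟩ : ∃ H : Finset (ℕ × ℕ), H = (J ×ˢ J).filter (fun z => z.1 ≠ z.2 ∧
    z.1 ≠ y0 ∧ x ≠ z.2 ∧ IsSquare (d z.1 z.2 * d z.1 y0 * d x z.2 * d x y0 * B)) := ⟨_, rfl⟩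
  rw [← hHdef] at hH
  have hHmem : ∀ z ∈ H, z.1 ∈ J ∧ z.2 ∈ J ∧ z.1 ≠ z.2 ∧ z.1 ≠ y0 ∧ x ≠ z.2 ∧ IsSquare (X z) := by
    intro z hz
    rw [hHdef, mem_filter, mem_product] at hz
    rw [hX]
    exact ⟨hz.1.1, hz.1.2, hz.2.1, hz.2.2.1, hz.2.2.2.1, hz.2.2.2.2⟩
  have hch : ∀ p : ℕ, ∃ g : ℕ → ℤ, (∀ n, g n = 1 ∨ g n = -1) ∧
      (p.Prime → p ≠ 2 → ¬ p ∣ q → ∀ n ∈ S, ∀ n' ∈ S, n ≠ n' →
        jacobiSym (m n + m n') p = jacobiSym (d n n') p * g n * g n') := by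
    intro p
    by_cases hp : p.Prime ∧ p ≠ 2 ∧ ¬ p ∣ q
    · obtain ⟨g, hg, hg'⟩ := hDN.chn p hp.1 hp.2.1 hp.2.2
      exact ⟨g, hg, fun _ _ _ => hg'⟩
    · exact ⟨fun _ => 1, fun _ => Or.inl rfl, fun a1 a2 a3 => absurd ⟨a1, a2, a3⟩ hp⟩
  choose g hg hg' using hch
  have hgsq : ∀ p n, g p n * g p n = 1 := by
    intro p n
    rcases hg p n with h | h <;> rw [h] <;> norm_num
  have hgabs : ∀ p n, |g p n| = 1 := by
    intro p n
    rcases hg p n with h | h <;> rw [h] <;> norm_num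
  obtain ⟨F, hF⟩ : ∃ F : ℕ → ℕ → ℤ, F = fun p i =>
    jacobiSym (d i y0 * d x y0 * B) p * g p i := ⟨_, rfl⟩
  obtain ⟨G, hG⟩ : ∃ G : ℕ → ℕ → ℤ, G = fun p j => jacobiSym (d x j) p * g p j := ⟨_, rfl⟩
  have hF1 : ∀ p n, |F p n| ≤ 1 := by
    intro p n
    rw [hF]
    show |jacobiSym (d n y0 * d x y0 * B) p * g p n| ≤ 1
    rw [abs_mul, hgabs, mul_one]
    exact abs_jac _ _
  have hG1 : ∀ p n, |G p n| ≤ 1 := by
    intro p n
    rw [hG]
    show |jacobiSym (d x n) p * g p n| ≤ 1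
    rw [abs_mul, hgabs, mul_one]
    exact abs_jac _ _
  have hQ : ∀ p ∈ NP q y, p.Prime ∧ p ≠ 2 ∧ p ≤ y := by
    intro p hp
    rw [NP, mem_filter, mem_Icc] at hp
    exact ⟨hp.2.1, hp.2.2.1, hp.1.2⟩
  have hQq : ∀ p ∈ NP q y, ¬ p ∣ q := by
    intro p hp
    rw [NP, mem_filter, mem_Icc] at hp
    exact hp.2.2.2
  have hlog2 : (0.6931 : ℝ) < Real.log 2 := by
    have := Real.log_two_gt_d9; linarith
  obtain ⟨l, hl⟩ : ∃ l : ℕ, l = ⌊2 * (1 + Real.log N)⌋₊ := ⟨_, rfl⟩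
  have hlle : (l : ℝ) ≤ 2 * (1 + Real.log N) := by
    rw [hl]; exact Nat.floor_le (by linarith)
  have hlc : ∀ i ∈ J, ∀ j ∈ J, i ≠ j →
      ((NP q y).filter (fun p : ℕ => (p : ℤ) ∣ m i - m j)).card ≤ l := by
    intro i hi j hj hij
    have hsub : (NP q y).filter (fun p : ℕ => (p : ℤ) ∣ m i - m j) ⊆
        (NP q y).filter (fun p : ℕ => (p : ℤ) ∣ (i : ℤ) - j) := by
      intro p hp
      rw [mem_filter] at hp ⊢
      exact ⟨hp.1, hDN.dif i (hJS hi) j (hJS hj) p (hQ p hp.1).1 (hQq p hp.1) hp.2⟩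
    have hiN : i < N := mem_range.1 (hDat.sub (hJS hi))
    have hjN : j < N := mem_range.1 (hDat.sub (hJS hj))
    have hne' : ((i : ℤ) - j) ≠ 0 := sub_ne_zero.2 (by exact_mod_cast hij)
    have habs : |(((i : ℤ) - j : ℤ) : ℝ)| ≤ (N : ℝ) := by
      have h7 : |(i : ℤ) - j| ≤ N := by rw [abs_le]; constructor <;> omega
      exact_mod_cast h7
    have h8 := count_real (NP q y) (fun p hp => (hQ p hp).1) ((i : ℤ) - j) hne' N habs
    refine le_trans (card_le_card hsub) ?_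
    rw [hl]
    apply Nat.le_floor
    have h9 : (0 : ℝ) ≤ ((NP q y).filter (fun p : ℕ => (p : ℤ) ∣ (i : ℤ) - j)).card := by
      positivity
    nlinarith
  have hS := h4 y l J (NP q y) m F G hQ hF1 hG1 hlc
  -- lower bound on H
  have hterm : ∀ z ∈ H, ((NP q y).card : ℤ) -
      2 * (((NP q y).filter (fun p : ℕ => (p : ℤ) ∣ X z)).card : ℤ) ≤
      ∑ p ∈ NP q y, jacobiSym (m z.1 + m z.2) p * F p z.1 * G p z.2 := by
    intro z hz
    obtain ⟨hz1, hz2, hz3, hz4, hz5, hz6⟩ := hHmem z hz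
    have h5 : ∀ p ∈ NP q y, (1 : ℤ) - 2 * (if (p : ℤ) ∣ X z then 1 else 0) ≤
        jacobiSym (m z.1 + m z.2) p * F p z.1 * G p z.2 := by
      intro p hp
      by_cases hdv : (p : ℤ) ∣ X z
      · rw [if_pos hdv]
        have h6 : |jacobiSym (m z.1 + m z.2) p * F p z.1 * G p z.2| ≤ 1 := by
          rw [abs_mul, abs_mul]
          have a1 := abs_jac (m z.1 + m z.2) p
          have a2 := hF1 p z.1
          have a3 := hG1 p z.2
          exact mul_le_one₀ (mul_le_one₀ a1 (abs_nonneg _) a2) (abs_nonneg _) a3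
        have h7 := (abs_le.1 h6).1
        linarith
      · rw [if_neg hdv]
        have h6 := jac_isSquare (hQ p hp).1 hz6 hdv
        have h7 := hg' p (hQ p hp).1 (hQ p hp).2.1 (hQq p hp) z.1 (hJS hz1) z.2 (hJS hz2) hz3
        have h8 : jacobiSym (m z.1 + m z.2) p * F p z.1 * G p z.2 = 1 := by
          rw [h7, hF, hG]
          show jacobiSym (d z.1 z.2) p * g p z.1 * g p z.2 *
            (jacobiSym (d z.1 y0 * d x y0 * B) p * g p z.1) *
            (jacobiSym (d x z.2) p * g p z.2) = 1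
          rw [hX] at h6
          have h6' : jacobiSym (d z.1 z.2 * d z.1 y0 * d x z.2 * d x y0 * B) p = 1 := h6
          rw [jacobiSym.mul_left, jacobiSym.mul_left, jacobiSym.mul_left,
            jacobiSym.mul_left] at h6'
          rw [jacobiSym.mul_left, jacobiSym.mul_left]
          have h9 := hgsq p z.1
          have h10 := hgsq p z.2
          calc _ = (jacobiSym (d z.1 z.2) p * jacobiSym (d z.1 y0) p * jacobiSym (d x z.2) p *
                jacobiSym (d x y0) p * jacobiSym B p) * (g p z.1 * g p z.1) *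
                (g p z.2 * g p z.2) := by ring
            _ = 1 := by rw [h6', h9, h10]; norm_num
        rw [h8]; norm_num
    calc ((NP q y).card : ℤ) -
          2 * (((NP q y).filter (fun p : ℕ => (p : ℤ) ∣ X z)).card : ℤ)
        = ∑ p ∈ NP q y, ((1 : ℤ) - 2 * (if (p : ℤ) ∣ X z then 1 else 0)) := by
          rw [sum_sub_distrib, ← mul_sum, sum_boole]; simp
      _ ≤ _ := sum_le_sum h5
  have hcnt : ∀ z ∈ H, (((NP q y).filter (fun p : ℕ => (p : ℤ) ∣ X z)).card : ℝ) ≤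
      12 * (1 + Real.log N) := by
    intro z hz
    obtain ⟨hz1, hz2, hz3, hz4, hz5, hz6⟩ := hHmem z hz
    have b1 := hd z.1 hz1 z.2 hz2 hz3
    have b2 := hd z.1 hz1 y0 hy0 hz4
    have b3 := hd x hx z.2 hz2 hz5
    have b4 := hd x hx y0 hy0 hxy
    have hX0 : X z ≠ 0 := by
      rw [hX]
      exact mul_ne_zero (mul_ne_zero (mul_ne_zero (mul_ne_zero b1.1 b2.1) b3.1) b4.1) hB0
    have hXle : |X z| ≤ 256 * (N : ℤ) ^ 8 := by
      rw [hX]
      show |d z.1 z.2 * d z.1 y0 * d x z.2 * d x y0 * B| ≤ 256 * (N : ℤ) ^ 8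
      rw [abs_mul, abs_mul, abs_mul, abs_mul]
      calc |d z.1 z.2| * |d z.1 y0| * |d x z.2| * |d x y0| * |B|
          ≤ (2 * N) * (2 * N) * (2 * N) * (2 * N) * (16 * (N : ℤ) ^ 4) := by
            gcongr
            · exact b1.2
            · exact b2.2
            · exact b3.2
            · exact b4.2
        _ = 256 * (N : ℤ) ^ 8 := by ring
    have hXr : |((X z : ℤ) : ℝ)| ≤ 256 * (N : ℝ) ^ 8 := by exact_mod_cast hXle
    have h8 := count_real (NP q y) (fun p hp => (hQ p hp).1) (X z) hX0 _ hXr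
    have hN0 : (0 : ℝ) < N := by linarith
    have h9 : Real.log (256 * (N : ℝ) ^ 8) = 8 * Real.log 2 + 8 * Real.log N := by
      rw [Real.log_mul (by norm_num) (by positivity), Real.log_pow,
        show (256 : ℝ) = 2 ^ 8 by norm_num, Real.log_pow]
      push_cast
      ring
    rw [h9] at h8
    have hlog2' : Real.log 2 < 0.6932 := by
      have := Real.log_two_lt_d9; linarith
    have h10 : (0 : ℝ) ≤ ((NP q y).filter (fun p : ℕ => (p : ℤ) ∣ X z)).card := by positivity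
    nlinarith
  obtain ⟨n, hn⟩ : ∃ n : ℝ, n = ((NP q y).card : ℝ) := ⟨_, rfl⟩
  obtain ⟨L, hL⟩ : ∃ L : ℝ, L = 1 + Real.log N := ⟨_, rfl⟩
  have hL1 : 1 ≤ L := by rw [hL]; linarith
  rw [← hn, ← hL] at hNP
  have hn0 : 0 ≤ n := by rw [hn]; positivity
  have hn48 : 48 * L ≤ n := by
    have h5 : (48 * L) ^ 2 ≤ n ^ 2 := by
      calc (48 * L) ^ 2 = 2304 * 1 * L ^ 2 := by ring
        _ ≤ (25 * C1 + 2400) * (T * y) * L ^ 2 := by
          apply mul_le_mul_of_nonneg_right _ (by positivity)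
          apply mul_le_mul _ hTy (by norm_num) (by linarith)
          linarith
        _ = (25 * C1 + 2400) * T * L ^ 2 * y := by ring
        _ ≤ n ^ 2 := hNP
    exact (pow_le_pow_iff_left₀ (by linarith) hn0 (by norm_num)).1 h5
  have hlow : ∀ z ∈ H, (n / 2) ^ 2 ≤
      (((∑ p ∈ NP q y, jacobiSym (m z.1 + m z.2) p * F p z.1 * G p z.2) ^ 2 : ℤ) : ℝ) := by
    intro z hz
    have h5 := hterm z hz
    have h6 := hcnt z hz
    have h7 : ((((NP q y).card : ℤ) -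
      2 * (((NP q y).filter (fun p : ℕ => (p : ℤ) ∣ X z)).card : ℤ) : ℤ) : ℝ) ≤
      ((∑ p ∈ NP q y, jacobiSym (m z.1 + m z.2) p * F p z.1 * G p z.2 : ℤ) : ℝ) := by
      exact_mod_cast h5
    rw [Int.cast_pow]
    rw [Int.cast_sub, Int.cast_mul, Int.cast_natCast, Int.cast_natCast, ← hn] at h7
    rw [← hL] at h6
    have h8 : n / 2 ≤ ((∑ p ∈ NP q y,
        jacobiSym (m z.1 + m z.2) p * F p z.1 * G p z.2 : ℤ) : ℝ) := by
      refine le_trans ?_ h7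
      push_cast
      linarith
    exact pow_le_pow_left₀ (by linarith) h8 2
  have hsumH : (H.card : ℝ) * (n / 2) ^ 2 ≤
      ((∑ i ∈ J, ∑ j ∈ J, (∑ p ∈ NP q y,
        jacobiSym (m i + m j) p * F p i * G p j) ^ 2 : ℤ) : ℝ) := by
    calc (H.card : ℝ) * (n / 2) ^ 2 = ∑ _z ∈ H, (n / 2) ^ 2 := by
          rw [sum_const, nsmul_eq_mul]
      _ ≤ ∑ z ∈ H, (((∑ p ∈ NP q y,
          jacobiSym (m z.1 + m z.2) p * F p z.1 * G p z.2) ^ 2 : ℤ) : ℝ) := sum_le_sum hlow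
      _ = ((∑ z ∈ H, (∑ p ∈ NP q y,
          jacobiSym (m z.1 + m z.2) p * F p z.1 * G p z.2) ^ 2 : ℤ) : ℝ) := by
          rw [Int.cast_sum]
      _ ≤ ((∑ i ∈ J, ∑ j ∈ J, (∑ p ∈ NP q y,
        jacobiSym (m i + m j) p * F p i * G p j) ^ 2 : ℤ) : ℝ) := by
          rw [Int.cast_le]
          rw [← sum_product']
          apply sum_le_sum_of_subset_of_nonneg
          · rw [hHdef]; exact filter_subset _ _
          · intro z _ _; positivity
  have hSr : ((∑ i ∈ J, ∑ j ∈ J, (∑ p ∈ NP q y,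
        jacobiSym (m i + m j) p * F p i * G p j) ^ 2 : ℤ) : ℝ) ≤
      n * (J.card : ℝ) ^ 2 + y * (n ^ 2 * J.card + (l : ℝ) ^ 2 * (J.card : ℝ) ^ 2) := by
    rw [hn]
    exact_mod_cast hS
  have hCE : (25 * C1 + 2400) * T = 25 * E + 2400 * T := by rw [hEdef]; ring
  rw [hCE] at hJ hNP
  have hT0 : 0 < T := by linarith
  refine final_ineq C1 T E n J.card H.card L l y hC1 hT1 hEdef (by linarith) ?_ hL1 hyr
    (by positivity) (le_trans hsumH hSr) hH ?_ ?_ (by rw [hL]; exact hlle) ?_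
  · have : 0 < J.card := by omega
    exact_mod_cast this
  · refine le_trans ?_ hJ
    have h5 : 25 * E ≤ 25 * E + 2400 * T := by linarith
    exact mul_le_mul_of_nonneg_right h5 (by linarith)
  · refine le_trans ?_ hNP
    have h5 : 25 * E ≤ 25 * E + 2400 * T := by linarith
    exact mul_le_mul_of_nonneg_right (mul_le_mul_of_nonneg_right h5 (by positivity))
      (by linarith)
  · rw [hn]
    have h5 : (NP q y).card ≤ y := by
      calc (NP q y).card ≤ (Icc 1 y).card := card_filter_le _ _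
        _ = y := by rw [Nat.card_Icc]; omega
    exact_mod_cast h5

end Pool.Agent.Helper18.RD
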