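import Pool.Agent.Helper45.RD6.Rough
import Pool.Agent.Helper61.SO.MER
import Pool.Agent.Helper19.RD.PL
import Pool.Agent.Helper19.RD.Stmts8

/-! A nonsquare whose symbol is `1` at nearly all primes up to `x` is at least `x ^ (1 - δ)`. -/

set_option autoImplicit false

namespace Pool.Agent.Helper45.RD6

open Finset Pool.Agent.Helper18.RD

/-- odd primes up to `z` -/
def Qz (z : ℕ) : Finset ℕ := (Icc 1 z).filter (fun p => p.Prime ∧ p ≠ 2)

/-- the Euler product of Rankin's method -/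
theorem prod_bound : ∃ C : ℝ, 1 ≤ C ∧ ∀ z : ℕ, 3 ≤ z →
    ∏ p ∈ Qz z, (1 + (p : ℝ) ^ (1 / Real.log z - 1)) ≤ C * (Real.log z) ^ 3 := by
  obtain ⟨C0, hC0, hM⟩ := Pool.Agent.Helper17.SO.mer_abs
  refine ⟨Real.exp (3 * C0), Real.one_le_exp (by positivity), ?_⟩
  intro z hz
  have hzr : (3 : ℝ) ≤ z := by exact_mod_cast hz
  have hlz : 1 < Real.log z := by
    have h1 : Real.log 3 ≤ Real.log z := Real.log_le_log (by norm_num) hzr
    have h2 : (1 : ℝ) < Real.log 3 := by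
      rw [Real.lt_log_iff_exp_lt (by norm_num)]
      have := Real.exp_one_lt_d9
      linarith
    linarith
  have hlz0 : 0 < Real.log z := by linarith
  have hterm : ∀ p ∈ Qz z, (1 + (p : ℝ) ^ (1 / Real.log z - 1)) ≤ Real.exp (3 * (1 / (p : ℝ))) := by
    intro p hp
    rw [Qz, mem_filter, mem_Icc] at hp
    have hp0 : (0 : ℝ) < p := by exact_mod_cast hp.2.1.pos
    have hpz : (p : ℝ) ≤ z := by exact_mod_cast hp.1.2
    have h1 : (p : ℝ) ^ (1 / Real.log z) ≤ 3 := by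
      calc (p : ℝ) ^ (1 / Real.log z) ≤ (z : ℝ) ^ (1 / Real.log z) :=
            Real.rpow_le_rpow hp0.le hpz (by positivity)
        _ = Real.exp 1 := by
            rw [Real.rpow_def_of_pos (by linarith), mul_one_div_cancel hlz0.ne']
        _ ≤ 3 := by have := Real.exp_one_lt_d9; linarith
    have h2 : (p : ℝ) ^ (1 / Real.log z - 1) ≤ 3 * (1 / (p : ℝ)) := by
      rw [Real.rpow_sub hp0, Real.rpow_one, mul_one_div]
      exact div_le_div_of_nonneg_right h1 hp0.le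
    have h3 := Real.add_one_le_exp (3 * (1 / (p : ℝ)))
    linarith
  calc ∏ p ∈ Qz z, (1 + (p : ℝ) ^ (1 / Real.log z - 1))
      ≤ ∏ p ∈ Qz z, Real.exp (3 * (1 / (p : ℝ))) :=
        prod_le_prod (fun p _ => by positivity) hterm
    _ = Real.exp (3 * ∑ p ∈ Qz z, 1 / (p : ℝ)) := by
        rw [← Real.exp_sum, mul_sum]
    _ ≤ Real.exp (3 * (Real.log (Real.log z) + C0)) := by
        apply Real.exp_le_exp.2
        have h1 : ∑ p ∈ Qz z, 1 / (p : ℝ) ≤
            ∑ p ∈ (range (z + 1)).filter Nat.Prime, 1 / (p : ℝ) := by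
          apply sum_le_sum_of_subset_of_nonneg
          · intro p hp
            rw [Qz, mem_filter, mem_Icc] at hp
            rw [mem_filter, mem_range]
            exact ⟨by omega, hp.2.1⟩
          · intro p _ _
            positivity
        have h2 := (abs_le.1 (hM z (by omega))).2
        linarith
    _ = Real.exp (3 * C0) * (Real.log z) ^ 3 := by
        have h1 : 3 * (Real.log (Real.log z) + C0) = 3 * C0 + (Real.log (Real.log z) * 3) := by
          ring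
        have h2 : Real.exp (Real.log (Real.log z) * 3) = (Real.log z) ^ 3 := by
          rw [Real.exp_mul, Real.exp_log hlz0]
          norm_num
        rw [h1, Real.exp_add, h2]

theorem exc (hPER : ST_PER) : ∀ δ : ℝ, 0 < δ → ∃ c X0 : ℝ, 0 < c ∧ ∀ (x z : ℕ) (e : ℤ),
    X0 ≤ x → 3 ≤ z → 7 * Real.log z * Real.log (Real.log x) ≤ δ / 2 * Real.log x → e ≠ 0 →
    ¬ IsSquare e →
    ∑ p ∈ (Ioc z x).filter (fun p : ℕ => p.Prime ∧ jacobiSym e p ≠ 1), (1 / (p : ℝ)) ≤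
      c / Real.log x → (x : ℝ) ^ (1 - δ) ≤ |(e : ℝ)| := by
  intro δ hδ
  obtain ⟨C, hC1, hC⟩ := prod_bound
  -- large x
  have hev : ∀ᶠ x : ℝ in Filter.atTop, 3 ≤ x ∧ 1 ≤ Real.log (Real.log x) ∧
      80 * C ≤ (Real.log x) ^ 3 ∧ 80 * Real.log x * (x ^ (1 / 14 : ℝ) + 2) ≤ x ∧
      640 / 3 * Real.log x ≤ x ^ (δ / 2) := by
    have e1 : ∀ᶠ x : ℝ in Filter.atTop, 3 ≤ x := Filter.eventually_ge_atTop 3
    have e2 : ∀ᶠ x : ℝ in Filter.atTop, 1 ≤ Real.log (Real.log x) :=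
      (Real.tendsto_log_atTop.comp Real.tendsto_log_atTop).eventually_ge_atTop 1
    have e3 : ∀ᶠ x : ℝ in Filter.atTop, 80 * C ≤ (Real.log x) ^ 3 :=
      ((Filter.tendsto_pow_atTop (by norm_num)).comp
        Real.tendsto_log_atTop).eventually_ge_atTop (80 * C)
    have e4 : ∀ᶠ x : ℝ in Filter.atTop, ‖Real.log x‖ ≤ 1 / 240 * ‖x ^ (1 / 2 : ℝ)‖ :=
      (isLittleO_log_rpow_atTop (by norm_num)).bound (by norm_num)
    have e5 : ∀ᶠ x : ℝ in Filter.atTop, ‖Real.log x‖ ≤ 3 / 640 * ‖x ^ (δ / 2)‖ :=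
      (isLittleO_log_rpow_atTop (by positivity)).bound (by norm_num)
    filter_upwards [e1, e2, e3, e4, e5] with x h1 h2 h3 h4 h5
    have hx0 : (0 : ℝ) < x := by linarith
    have hx1 : (1 : ℝ) ≤ x := by linarith
    rw [Real.norm_of_nonneg (Real.rpow_nonneg hx0.le _)] at h4 h5
    have h4' := (Real.le_norm_self _).trans h4
    have h5' := (Real.le_norm_self _).trans h5
    refine ⟨h1, h2, h3, ?_, by linarith⟩
    have hl0 : 0 ≤ Real.log x := Real.log_nonneg hx1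
    have h6 : x ^ (1 / 14 : ℝ) + 2 ≤ 3 * x ^ (1 / 2 : ℝ) := by
      have h7 : x ^ (1 / 14 : ℝ) ≤ x ^ (1 / 2 : ℝ) :=
        Real.rpow_le_rpow_of_exponent_le hx1 (by norm_num)
      have h8 : 1 ≤ x ^ (1 / 2 : ℝ) := Real.one_le_rpow hx1 (by norm_num)
      linarith
    have h9 : x ^ (1 / 2 : ℝ) * x ^ (1 / 2 : ℝ) = x := by
      rw [← Real.rpow_add hx0]; norm_num
    calc 80 * Real.log x * (x ^ (1 / 14 : ℝ) + 2)
        ≤ 80 * (1 / 240 * x ^ (1 / 2 : ℝ)) * (3 * x ^ (1 / 2 : ℝ)) := by gcongr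
      _ = x ^ (1 / 2 : ℝ) * x ^ (1 / 2 : ℝ) := by ring
      _ = x := h9
  obtain ⟨X0, hX0⟩ := Filter.eventually_atTop.1 hev
  refine ⟨1 / 80, max X0 1, by norm_num, ?_⟩
  intro x z e hx hz hzx he0 hesq hbad
  have hxX : X0 ≤ x := (le_max_left _ _).trans hx
  obtain ⟨hx3, hLL, hL3, hxz, hxδ⟩ := hX0 x hxX
  have hx0 : (0 : ℝ) < x := by linarith
  have hx1 : (1 : ℝ) ≤ x := by linarith
  have heabs : (1 : ℝ) ≤ |(e : ℝ)| := by exact_mod_cast Int.one_le_abs he0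
  by_cases hδ1 : 1 ≤ δ
  · refine le_trans ?_ heabs
    exact Real.rpow_le_one_of_one_le_of_nonpos hx1 (by linarith)
  push Not at hδ1
  obtain ⟨L, hL⟩ : ∃ L : ℝ, L = Real.log x := ⟨_, rfl⟩
  rw [← hL] at hLL hL3 hxz hxδ hzx hbad
  have hL0 : 0 < L := by
    rw [hL]; exact Real.log_pos (by linarith)
  have hzr : (3 : ℝ) ≤ z := by exact_mod_cast hz
  have hlz : 1 < Real.log z := by
    have h1 : Real.log 3 ≤ Real.log z := Real.log_le_log (by norm_num) hzr
    have h2 : (1 : ℝ) < Real.log 3 := by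
      rw [Real.lt_log_iff_exp_lt (by norm_num)]
      have := Real.exp_one_lt_d9
      linarith
    linarith
  have hlz0 : 0 < Real.log z := by linarith
  -- z is small
  have hlzL : Real.log z ≤ 1 / 14 * L := by
    have h1 : 7 * Real.log z * 1 ≤ 7 * Real.log z * Real.log L := by gcongr
    nlinarith
  have hzle : (z : ℝ) ≤ (x : ℝ) ^ (1 / 14 : ℝ) := by
    rw [← Real.log_le_log_iff (by linarith) (by positivity), Real.log_rpow hx0, ← hL]
    exact hlzL
  have hlogzL : Real.log z ≤ L := by linarith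
  -- the level D
  obtain ⟨D, hD⟩ : ∃ D : ℕ, D = ⌈(x : ℝ) ^ (δ / 2)⌉₊ := ⟨_, rfl⟩
  have hxd1 : 1 ≤ (x : ℝ) ^ (δ / 2) := Real.one_le_rpow hx1 (by positivity)
  have hD1 : 1 ≤ D := by rw [hD]; exact Nat.ceil_pos.2 (by linarith)
  have hDge : (x : ℝ) ^ (δ / 2) ≤ D := by rw [hD]; exact Nat.le_ceil _
  have hDle : (D : ℝ) ≤ 2 * (x : ℝ) ^ (δ / 2) := by
    have := Nat.ceil_lt_add_one (show (0 : ℝ) ≤ (x : ℝ) ^ (δ / 2) by positivity)
    rw [← hD] at this
    linarith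
  have hD0 : (0 : ℝ) < D := by exact_mod_cast hD1
  have hDσ : (D : ℝ) ^ (-(1 / Real.log z)) ≤ 1 / L ^ 7 := by
    calc (D : ℝ) ^ (-(1 / Real.log z)) ≤ ((x : ℝ) ^ (δ / 2)) ^ (-(1 / Real.log z)) := by
          apply Real.rpow_le_rpow_of_nonpos (by positivity) hDge
          have : 0 < 1 / Real.log z := by positivity
          linarith
      _ = Real.exp (-(δ / 2 * L / Real.log z)) := by
          rw [← Real.rpow_mul hx0.le, Real.rpow_def_of_pos hx0, ← hL]
          congr 1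
          ring
      _ ≤ Real.exp (-(7 * Real.log L)) := by
          apply Real.exp_le_exp.2
          have h1 : 7 * Real.log L ≤ δ / 2 * L / Real.log z := by
            rw [le_div_iff₀ hlz0]
            linarith
          linarith
      _ = 1 / L ^ 7 := by
          rw [Real.exp_neg, mul_comm (7 : ℝ), Real.exp_mul, Real.exp_log hL0, one_div]
          norm_num
  have hQ : ∀ p ∈ Qz z, p.Prime ∧ p ≠ 2 := by
    intro p hp
    rw [Qz, mem_filter] at hp
    exact hp.2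
  have hF : ∀ y : ℕ,
      |((∑ n ∈ (Icc 1 y).filter (fun n => Odd n), jacobiSym e n : ℤ) : ℝ)| ≤ 4 * |(e : ℝ)| := by
    intro y
    have h1 := hPER e he0 hesq y
    exact_mod_cast h1
  have hup := rough_rankin e (4 * |(e : ℝ)|) (by positivity) hF (Qz z) hQ D hD1
    (1 / Real.log z) (by positivity) x
  have hlow := rough_lower e (Qz z) z x
    (fun p hp hp2 hpz => by
      rw [Qz, mem_filter, mem_Icc]
      exact ⟨⟨hp.one_lt.le, hpz⟩, hp, hp2⟩)
    (fun p hp => by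
      rw [Qz, mem_filter, mem_Icc] at hp
      exact ⟨hp.1.2, hp.2.1⟩)
  -- number of primes
  have hpi : (x : ℝ) / (10 * L) - z - 1 ≤
      (((Ioc z x).filter (fun p => p.Prime ∧ p ≠ 2)).card : ℝ) := by
    have h1 := pl_pi x (by exact_mod_cast hx3)
    rw [← hL] at h1
    have h2 : Nat.primeCounting x ≤
        ((Ioc z x).filter (fun p => p.Prime ∧ p ≠ 2)).card + z + 1 := by
      have h3 : Nat.primeCounting x = ((range (x + 1)).filter Nat.Prime).card := by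
        rw [Nat.primeCounting, Nat.primeCounting', Nat.count_eq_card_filter_range]
      rw [h3]
      have h4 : (range (x + 1)).filter Nat.Prime ⊆
          ((Ioc z x).filter (fun p => p.Prime ∧ p ≠ 2) ∪ Icc 1 z) ∪ {2} := by
        intro p hp
        rw [mem_filter, mem_range] at hp
        rw [mem_union, mem_union, mem_singleton, mem_filter, mem_Ioc, mem_Icc]
        have := hp.2.one_lt
        by_cases h5 : p = 2
        · exact Or.inr h5
        · left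
          by_cases h6 : p ≤ z
          · right; omega
          · left; exact ⟨⟨by omega, by omega⟩, hp.2, h5⟩
      refine (card_le_card h4).trans ((card_union_le _ _).trans ?_)
      have h5 := card_union_le ((Ioc z x).filter (fun p => p.Prime ∧ p ≠ 2)) (Icc 1 z)
      rw [Nat.card_Icc] at h5
      rw [card_singleton]
      omega
    have h3 : (Nat.primeCounting x : ℝ) ≤
        (((Ioc z x).filter (fun p => p.Prime ∧ p ≠ 2)).card : ℝ) + z + 1 := by
      exact_mod_cast h2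
    linarith
  obtain ⟨t, ht⟩ : ∃ t : ℝ, t = (x : ℝ) / (80 * L) := ⟨_, rfl⟩
  have ht0 : 0 < t := by rw [ht]; positivity
  have h1 : (x : ℝ) / (10 * L) = 8 * t := by rw [ht]; field_simp; norm_num
  have h2 : (z : ℝ) + 1 ≤ t := by
    rw [ht, le_div_iff₀ (by positivity)]
    have : (z : ℝ) + 1 ≤ (x : ℝ) ^ (1 / 14 : ℝ) + 2 := by linarith
    calc ((z : ℝ) + 1) * (80 * L) ≤ ((x : ℝ) ^ (1 / 14 : ℝ) + 2) * (80 * L) := by gcongr
      _ = 80 * L * ((x : ℝ) ^ (1 / 14 : ℝ) + 2) := by ring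
      _ ≤ x := hxz
  have h3 : 2 * (x : ℝ) * ∑ p ∈ (Ioc z x).filter (fun p : ℕ => p.Prime ∧ jacobiSym e p ≠ 1),
      (1 / (p : ℝ)) ≤ 2 * t := by
    calc _ ≤ 2 * (x : ℝ) * (1 / 80 / L) := by gcongr
      _ = 2 * t := by rw [ht]; field_simp
  have h4 : (x : ℝ) * ((D : ℝ) ^ (-(1 / Real.log z)) *
      ∏ p ∈ Qz z, (1 + (p : ℝ) ^ (1 / Real.log z - 1))) ≤ t := by
    calc _ ≤ (x : ℝ) * (1 / L ^ 7 * (C * (Real.log z) ^ 3)) := by
          gcongr
          exact hC z hz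
      _ ≤ (x : ℝ) * (1 / L ^ 7 * (C * L ^ 3)) := by gcongr
      _ = (x : ℝ) * C / L ^ 4 := by field_simp
      _ ≤ t := by
          rw [ht, div_le_div_iff₀ (by positivity) (by positivity)]
          calc (x : ℝ) * C * (80 * L) = x * (80 * C) * L := by ring
            _ ≤ x * L ^ 3 * L := by gcongr
            _ = x * L ^ 4 := by ring
  have h5 : 3 * t ≤ 4 * |(e : ℝ)| * D := by
    have h6 := (le_abs_self _).trans hup
    linarith [hlow]
  have h6 : 3 * t ≤ 8 * |(e : ℝ)| * (x : ℝ) ^ (δ / 2) := by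
    calc 3 * t ≤ 4 * |(e : ℝ)| * D := h5
      _ ≤ 4 * |(e : ℝ)| * (2 * (x : ℝ) ^ (δ / 2)) := by gcongr
      _ = _ := by ring
  have h7 : (x : ℝ) ^ (1 - δ) * ((x : ℝ) ^ (δ / 2) * (x : ℝ) ^ (δ / 2)) = x := by
    rw [← Real.rpow_add hx0, ← Real.rpow_add hx0]
    rw [show 1 - δ + (δ / 2 + δ / 2) = 1 by ring, Real.rpow_one]
  have h8 : 0 < (x : ℝ) ^ (1 - δ) := Real.rpow_pos_of_pos hx0 _
  have h9 : (x : ℝ) ^ (1 - δ) * (x : ℝ) ^ (δ / 2) ≤ |(e : ℝ)| * (x : ℝ) ^ (δ / 2) := by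
    have h10 : 80 * L * (3 * t) = 3 * x := by rw [ht]; field_simp
    have h11 : 640 * L * ((x : ℝ) ^ (1 - δ) * (x : ℝ) ^ (δ / 2)) ≤ 3 * x := by
      calc 640 * L * ((x : ℝ) ^ (1 - δ) * (x : ℝ) ^ (δ / 2))
          = 3 * ((640 / 3 * L) * ((x : ℝ) ^ (1 - δ) * (x : ℝ) ^ (δ / 2))) := by ring
        _ ≤ 3 * ((x : ℝ) ^ (δ / 2) * ((x : ℝ) ^ (1 - δ) * (x : ℝ) ^ (δ / 2))) := by gcongr
        _ = 3 * ((x : ℝ) ^ (1 - δ) * ((x : ℝ) ^ (δ / 2) * (x : ℝ) ^ (δ / 2))) := by ring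
        _ = 3 * x := by rw [h7]
    have h12 : 3 * x ≤ 640 * L * (|(e : ℝ)| * (x : ℝ) ^ (δ / 2)) := by
      calc 3 * (x : ℝ) = 80 * L * (3 * t) := h10.symm
        _ ≤ 80 * L * (8 * |(e : ℝ)| * (x : ℝ) ^ (δ / 2)) := by gcongr
        _ = _ := by ring
    have h13 : 0 < 640 * L := by positivity
    exact le_of_mul_le_mul_left (h11.trans h12) h13
  exact le_of_mul_le_mul_right h9 (by positivity)

theorem st_EXC (hPER : ST_PER) : Pool.Agent.Helper19.RD.ST_EXC := by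
  obtain ⟨c, X0, hc, h⟩ := exc hPER (1 / 2) (by norm_num)
  -- large x
  have hev : ∀ᶠ x : ℝ in Filter.atTop, X0 ≤ x ∧ 3 ≤ x ∧ 1 ≤ Real.log x ∧
      (4 : ℝ) * (Real.log 3) ^ 2 * 40 ≤ Real.log x ∧
      28 * Real.log (Real.log x) ≤ Real.sqrt (Real.log x) := by
    have e4 : ∀ᶠ x : ℝ in Filter.atTop, ‖Real.log x‖ ≤ 1 / 28 * ‖x ^ (1 / 2 : ℝ)‖ :=
      (isLittleO_log_rpow_atTop (by norm_num)).bound (by norm_num)
    have e5 := Real.tendsto_log_atTop.eventually e4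
    filter_upwards [Filter.eventually_ge_atTop X0, Filter.eventually_ge_atTop (3 : ℝ),
      Real.tendsto_log_atTop.eventually_ge_atTop 1,
      Real.tendsto_log_atTop.eventually_ge_atTop ((4 : ℝ) * (Real.log 3) ^ 2 * 40), e5]
      with x h1 h2 h3 h4 h5
    refine ⟨h1, h2, h3, h4, ?_⟩
    rw [Real.norm_of_nonneg (Real.rpow_nonneg (by linarith) _)] at h5
    have h6 := (Real.le_norm_self _).trans h5
    rw [Real.sqrt_eq_rpow]
    linarith
  obtain ⟨X1, hX1⟩ := Filter.eventually_atTop.1 hev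
  refine ⟨c, ⌈X1⌉₊, hc, ?_⟩
  intro e x z he hesq hx hz hzx hbad
  have hx' : X1 ≤ x := (Nat.le_ceil X1).trans (by exact_mod_cast hx)
  obtain ⟨hx0, hx3, hL1, hL3, hLL⟩ := hX1 x hx'
  have hxpos : (0 : ℝ) < x := by linarith
  obtain ⟨L, hL⟩ : ∃ L : ℝ, L = Real.log x := ⟨_, rfl⟩
  rw [← hL] at hL1 hL3 hLL hzx hbad
  have hs0 : 0 ≤ Real.sqrt L := Real.sqrt_nonneg _
  have hss : Real.sqrt L * Real.sqrt L = L := Real.mul_self_sqrt (by linarith)
  have hl3 : 0 < Real.log 3 := Real.log_pos (by norm_num)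
  have hkey : ∀ z' : ℕ, 3 ≤ z' → (Real.log z') ^ 2 ≤ L →
      28 * Real.log z' * Real.log L ≤ L := by
    intro z' hz' h1
    have hlz : 0 ≤ Real.log z' := Real.log_natCast_nonneg z'
    have h2 : Real.log z' ≤ Real.sqrt L := Real.le_sqrt_of_sq_le h1
    have h3 : 0 ≤ Real.log L := Real.log_nonneg hL1
    calc 28 * Real.log z' * Real.log L = Real.log z' * (28 * Real.log L) := by ring
      _ ≤ Real.sqrt L * Real.sqrt L := mul_le_mul h2 hLL (by positivity) hs0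
      _ = L := hss
  obtain ⟨z', hz'3, hz'z, hz'L⟩ : ∃ z' : ℕ, 3 ≤ z' ∧ z ≤ z' ∧ (Real.log z') ^ 2 ≤ L := by
    rcases Nat.lt_or_ge z 3 with h3 | h3
    · refine ⟨3, le_refl _, h3.le, ?_⟩
      have : ((3 : ℕ) : ℝ) = 3 := by norm_num
      rw [this]
      nlinarith [sq_nonneg (Real.log 3)]
    · refine ⟨z, h3, le_refl _, ?_⟩
      nlinarith [sq_nonneg (Real.log z)]
  have h28 := hkey z' hz'3 hz'L
  have hbad' : ∑ p ∈ (Ioc z' x).filter (fun p : ℕ => p.Prime ∧ jacobiSym (e : ℤ) p ≠ 1),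
      (1 / (p : ℝ)) ≤ c / Real.log x := by
    rw [← hL]
    refine le_trans ?_ hbad
    apply sum_le_sum_of_subset_of_nonneg
    · intro p hp
      rw [mem_filter, mem_Ioc] at hp
      rw [mem_filter, mem_Icc]
      exact ⟨⟨by omega, hp.1.2⟩, hp.2⟩
    · intro p _ _; positivity
  have hesq' : ¬ IsSquare (e : ℤ) := by
    intro h1
    apply hesq
    obtain ⟨r, hr⟩ := h1
    refine ⟨r.natAbs, ?_⟩
    have : (e : ℤ) = ((r.natAbs * r.natAbs : ℕ) : ℤ) := by
      rw [hr, Nat.cast_mul, Int.natCast_natAbs, ← abs_mul, abs_mul_self]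
    exact_mod_cast this
  have h1 := h x z' (e : ℤ) hx0 hz'3 (by rw [← hL]; linarith) (by exact_mod_cast (by omega : e ≠ 0))
    hesq' hbad'
  have h2 : (x : ℝ) ^ (1 / 2 : ℝ) ≤ (e : ℝ) := by
    have h3 : |((e : ℤ) : ℝ)| = (e : ℝ) := by
      rw [Int.cast_natCast]; exact abs_of_nonneg (Nat.cast_nonneg _)
    rw [h3] at h1
    have h4 : (1 : ℝ) - 1 / 2 = 1 / 2 := by norm_num
    rwa [h4] at h1
  calc (x : ℝ) = ((x : ℝ) ^ (1 / 2 : ℝ)) ^ 2 := by
        rw [← Real.rpow_natCast, ← Real.rpow_mul hxpos.le]; norm_num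
    _ ≤ (e : ℝ) ^ 2 := pow_le_pow_left₀ (by positivity) h2 2

end Pool.Agent.Helper45.RD6
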