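import Pool.Agent.Helper18.RD.Stmts6

/-! Sums of a Jacobi symbol over rough numbers. -/

set_option autoImplicit false

namespace Pool.Agent.Helper45.RD6

open Finset

/-- odd numbers up to `x` free of the primes in `Q` -/
def Rg (Q : Finset ℕ) (x : ℕ) : Finset ℕ :=
  (Icc 1 x).filter (fun n => Odd n ∧ ∀ p ∈ Q, ¬ p ∣ n)

theorem rough_insert (e : ℤ) (Q : Finset ℕ) (hQ : ∀ p ∈ Q, p.Prime) (p : ℕ) (hp : p.Prime)
    (hp2 : p ≠ 2) (hpQ : p ∉ Q) (x : ℕ) :
    ∑ n ∈ Rg (insert p Q) x, jacobiSym e n =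
      ∑ n ∈ Rg Q x, jacobiSym e n - jacobiSym e p * ∑ n ∈ Rg Q (x / p), jacobiSym e n := by
  classical
  have hp0 : 0 < p := hp.pos
  have hodd : Odd p := hp.odd_of_ne_two hp2
  have h1 : Rg (insert p Q) x = (Rg Q x).filter (fun n => ¬ p ∣ n) := by
    ext n
    simp only [Rg, mem_filter, mem_insert, forall_eq_or_imp]
    tauto
  have h2 : ∑ n ∈ (Rg Q x).filter (fun n => p ∣ n), jacobiSym e n =
      jacobiSym e p * ∑ n ∈ Rg Q (x / p), jacobiSym e n := by
    rw [mul_sum]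
    symm
    apply sum_bij (fun n _ => p * n)
    · intro n hn
      simp only [Rg, mem_filter, mem_Icc] at hn ⊢
      obtain ⟨⟨hn1, hn2⟩, hn3, hn4⟩ := hn
      refine ⟨⟨⟨Nat.mul_pos hp0 hn1, ?_⟩, hodd.mul hn3, ?_⟩, dvd_mul_right _ _⟩
      · rw [Nat.le_div_iff_mul_le hp0] at hn2
        rw [mul_comm]; exact hn2
      · intro r hr hrn
        rcases (hQ r hr).dvd_mul.1 hrn with h | h
        · have := (Nat.prime_dvd_prime_iff_eq (hQ r hr) hp).1 h
          exact hpQ (this ▸ hr)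
        · exact hn4 r hr h
    · intro a _ b _ hab
      exact Nat.eq_of_mul_eq_mul_left hp0 hab
    · intro n hn
      simp only [Rg, mem_filter, mem_Icc] at hn
      obtain ⟨⟨⟨hn1, hn2⟩, hn3, hn4⟩, hn5⟩ := hn
      obtain ⟨k, rfl⟩ := hn5
      refine ⟨k, ?_, rfl⟩
      simp only [Rg, mem_filter, mem_Icc]
      refine ⟨⟨?_, ?_⟩, ?_, ?_⟩
      · rcases Nat.eq_zero_or_pos k with h | h
        · rw [h] at hn1; simp at hn1
        · exact h
      · rw [Nat.le_div_iff_mul_le hp0, mul_comm]; exact hn2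
      · exact (Nat.odd_mul.1 hn3).2
      · intro r hr hrk
        exact hn4 r hr (Dvd.dvd.mul_left hrk p)
    · intro n hn
      simp only [Rg, mem_filter, mem_Icc] at hn
      haveI : NeZero p := ⟨hp0.ne'⟩
      haveI : NeZero n := ⟨by omega⟩
      rw [jacobiSym.mul_right]
  rw [h1, ← h2]
  have h3 := sum_filter_add_sum_filter_not (Rg Q x) (fun n => p ∣ n) (fun n => jacobiSym e n)
  linarith

theorem rough_bound (e : ℤ) (F : ℕ → ℝ)
    (hF : ∀ x : ℕ, |((∑ n ∈ (Icc 1 x).filter (fun n => Odd n), jacobiSym e n : ℤ) : ℝ)| ≤ F x)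
    (Q : Finset ℕ) (hQ : ∀ p ∈ Q, p.Prime ∧ p ≠ 2) : ∀ x : ℕ,
    |((∑ n ∈ Rg Q x, jacobiSym e n : ℤ) : ℝ)| ≤ ∑ T ∈ Q.powerset, F (x / ∏ p ∈ T, p) := by
  classical
  induction Q using Finset.induction_on with
  | empty =>
    intro x
    have h1 : Rg ∅ x = (Icc 1 x).filter (fun n => Odd n) := by
      ext n; simp [Rg]
    rw [h1]
    simpa using hF x
  | insert p Q hpQ ih =>
    intro x
    have hQ' : ∀ r ∈ Q, r.Prime ∧ r ≠ 2 := fun r hr => hQ r (mem_insert_of_mem hr)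
    have hp := hQ p (mem_insert_self _ _)
    rw [rough_insert e Q (fun r hr => (hQ' r hr).1) p hp.1 hp.2 hpQ x]
    rw [Finset.sum_powerset_insert hpQ]
    have h1 := ih hQ' x
    have h2 := ih hQ' (x / p)
    have h3 : ∑ T ∈ Q.powerset, F (x / ∏ r ∈ insert p T, r) =
        ∑ T ∈ Q.powerset, F (x / p / ∏ r ∈ T, r) := by
      apply sum_congr rfl
      intro T hT
      rw [mem_powerset] at hT
      rw [prod_insert (fun h => hpQ (hT h)), Nat.div_div_eq_div_mul]
    rw [h3]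
    push_cast
    have h4 : |(jacobiSym e p : ℝ)| ≤ 1 := by
      rcases jacobiSym.trichotomy e p with h | h | h <;> rw [h] <;> norm_num
    have h5 : |(jacobiSym e p : ℝ) * ∑ n ∈ Rg Q (x / p), (jacobiSym e n : ℝ)| ≤
        |∑ n ∈ Rg Q (x / p), (jacobiSym e n : ℝ)| := by
      rw [abs_mul]
      exact mul_le_of_le_one_left (abs_nonneg _) h4
    push_cast at h1 h2
    calc _ ≤ |∑ n ∈ Rg Q x, (jacobiSym e n : ℝ)| +
          |(jacobiSym e p : ℝ) * ∑ n ∈ Rg Q (x / p), (jacobiSym e n : ℝ)| := abs_sub _ _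
      _ ≤ _ := by linarith

theorem card_prod_le (Q : Finset ℕ) (hQ : ∀ p ∈ Q, p.Prime) (D : ℕ) :
    (Q.powerset.filter (fun T => ∏ p ∈ T, p ≤ D)).card ≤ D := by
  classical
  have h1 : (Q.powerset.filter (fun T => ∏ p ∈ T, p ≤ D)).card ≤ (Icc 1 D).card := by
    apply card_le_card_of_injOn (fun T => ∏ p ∈ T, p)
    · intro T hT
      simp only [coe_filter, Set.mem_setOf_eq, mem_powerset] at hT
      simp only [coe_Icc, Set.mem_Icc]
      refine ⟨?_, hT.2⟩
      exact prod_pos (fun p hp => (hQ p (hT.1 hp)).pos)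
    · intro T hT T' hT' h
      simp only [coe_filter, Set.mem_setOf_eq, mem_powerset] at hT hT'
      have h1 := Nat.primeFactors_prod (fun p hp => hQ p (hT.1 hp))
      have h2 := Nat.primeFactors_prod (fun p hp => hQ p (hT'.1 hp))
      simp only at h
      rw [← h1, ← h2, h]
  rw [Nat.card_Icc] at h1
  omega

/-- the sum over rough numbers, by Rankin's method -/
theorem rough_rankin (e : ℤ) (A : ℝ) (hA : 0 ≤ A)
    (hF : ∀ x : ℕ, |((∑ n ∈ (Icc 1 x).filter (fun n => Odd n), jacobiSym e n : ℤ) : ℝ)| ≤ A)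
    (Q : Finset ℕ) (hQ : ∀ p ∈ Q, p.Prime ∧ p ≠ 2) (D : ℕ) (hD : 1 ≤ D) (σ : ℝ) (hσ : 0 ≤ σ)
    (x : ℕ) :
    |((∑ n ∈ Rg Q x, jacobiSym e n : ℤ) : ℝ)| ≤
      A * D + x * ((D : ℝ) ^ (-σ) * ∏ p ∈ Q, (1 + (p : ℝ) ^ (σ - 1))) := by
  classical
  have htriv : ∀ y : ℕ,
      |((∑ n ∈ (Icc 1 y).filter (fun n => Odd n), jacobiSym e n : ℤ) : ℝ)| ≤ y := by
    intro y
    push_cast
    refine (abs_sum_le_sum_abs _ _).trans ?_
    calc ∑ n ∈ (Icc 1 y).filter (fun n => Odd n), |(jacobiSym e n : ℝ)|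
        ≤ ∑ n ∈ (Icc 1 y).filter (fun n => Odd n), (1 : ℝ) := by
          apply sum_le_sum
          intro n _
          rcases jacobiSym.trichotomy e n with h | h | h <;> rw [h] <;> norm_num
      _ = (((Icc 1 y).filter (fun n => Odd n)).card : ℝ) := by simp
      _ ≤ ((Icc 1 y).card : ℝ) := by exact_mod_cast card_filter_le _ _
      _ = y := by rw [Nat.card_Icc]; simp
  obtain ⟨F, hFdef⟩ : ∃ F : ℕ → ℝ, F = fun y : ℕ => min A (y : ℝ) := ⟨_, rfl⟩
  have hF' : ∀ y : ℕ,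
      |((∑ n ∈ (Icc 1 y).filter (fun n => Odd n), jacobiSym e n : ℤ) : ℝ)| ≤ F y := by
    intro y
    rw [hFdef]
    exact le_min (hF y) (htriv y)
  refine (rough_bound e F hF' Q hQ x).trans ?_
  have hD0 : (0 : ℝ) < D := by exact_mod_cast hD
  have hprodpos : ∀ T ∈ Q.powerset, 1 ≤ ∏ p ∈ T, p := by
    intro T hT
    rw [mem_powerset] at hT
    exact Nat.one_le_iff_ne_zero.2 (prod_ne_zero_iff.2 (fun p hp => (hQ p (hT hp)).1.ne_zero))
  rw [← sum_filter_add_sum_filter_not Q.powerset (fun T => ∏ p ∈ T, p ≤ D)]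
  apply add_le_add
  · calc ∑ T ∈ Q.powerset.filter (fun T => ∏ p ∈ T, p ≤ D), F (x / ∏ p ∈ T, p)
        ≤ ∑ T ∈ Q.powerset.filter (fun T => ∏ p ∈ T, p ≤ D), A := by
          apply sum_le_sum
          intro T _
          rw [hFdef]
          exact min_le_left _ _
      _ = ((Q.powerset.filter (fun T => ∏ p ∈ T, p ≤ D)).card : ℝ) * A := by
          rw [sum_const, nsmul_eq_mul]
      _ ≤ D * A := by
          apply mul_le_mul_of_nonneg_right _ hA
          exact_mod_cast card_prod_le Q (fun p hp => (hQ p hp).1) D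
      _ = A * D := mul_comm _ _
  · have hterm : ∀ T ∈ Q.powerset.filter (fun T => ¬ ∏ p ∈ T, p ≤ D),
        F (x / ∏ p ∈ T, p) ≤ x * ((D : ℝ) ^ (-σ) * ∏ p ∈ T, (p : ℝ) ^ (σ - 1)) := by
      intro T hT
      rw [mem_filter] at hT
      have h1 := hprodpos T hT.1
      have h2 : D < ∏ p ∈ T, p := not_le.1 hT.2
      obtain ⟨d, hd⟩ : ∃ d : ℕ, d = ∏ p ∈ T, p := ⟨_, rfl⟩
      rw [← hd] at h1 h2
      have hd0 : (0 : ℝ) < d := by exact_mod_cast h1
      have h3 : F (x / ∏ p ∈ T, p) ≤ (x : ℝ) / d := by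
        rw [hFdef, ← hd]
        refine (min_le_right _ _).trans Nat.cast_div_le
      have h4 : ∏ p ∈ T, (p : ℝ) ^ (σ - 1) = (d : ℝ) ^ (σ - 1) := by
        rw [hd, Nat.cast_prod]
        rw [← Real.finset_prod_rpow]
        intro p _
        positivity
      rw [h4]
      refine h3.trans ?_
      have h5 : (1 : ℝ) ≤ (D : ℝ) ^ (-σ) * (d : ℝ) ^ σ := by
        rw [Real.rpow_neg hD0.le, ← div_eq_inv_mul, le_div_iff₀ (by positivity), one_mul]
        apply Real.rpow_le_rpow hD0.le _ hσ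
        exact_mod_cast h2.le
      have h6 : (d : ℝ) ^ (σ - 1) = (d : ℝ) ^ σ / d := by
        rw [Real.rpow_sub hd0, Real.rpow_one]
      rw [h6]
      calc (x : ℝ) / d = x * (1 * (1 / d)) := by ring
        _ ≤ x * (((D : ℝ) ^ (-σ) * (d : ℝ) ^ σ) * (1 / d)) := by gcongr
        _ = x * ((D : ℝ) ^ (-σ) * ((d : ℝ) ^ σ / d)) := by ring
    refine (sum_le_sum hterm).trans ?_
    rw [← mul_sum, ← mul_sum]
    apply mul_le_mul_of_nonneg_left _ (Nat.cast_nonneg _)
    apply mul_le_mul_of_nonneg_left _ (by positivity)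
    rw [prod_one_add]
    apply sum_le_sum_of_subset_of_nonneg (filter_subset _ _)
    intro T _ _
    positivity

/-- lower bound for the sum over rough numbers -/
theorem rough_lower (e : ℤ) (Q : Finset ℕ) (z x : ℕ)
    (hQz : ∀ p : ℕ, p.Prime → p ≠ 2 → p ≤ z → p ∈ Q) (hQ : ∀ p ∈ Q, p ≤ z ∧ p.Prime) :
    (((Ioc z x).filter (fun p => p.Prime ∧ p ≠ 2)).card : ℝ) -
      2 * x * ∑ p ∈ (Ioc z x).filter (fun p : ℕ => p.Prime ∧ jacobiSym e p ≠ 1), (1 / (p : ℝ)) ≤
    ((∑ n ∈ Rg Q x, jacobiSym e n : ℤ) : ℝ) := by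
  classical
  obtain ⟨Bp, hBp⟩ : ∃ Bp : Finset ℕ,
    Bp = (Ioc z x).filter (fun p : ℕ => p.Prime ∧ jacobiSym e p ≠ 1) := ⟨_, rfl⟩
  rw [← hBp]
  -- rough numbers with a bad symbol have a bad prime factor
  have h1 : ∀ n ∈ Rg Q x, jacobiSym e n ≠ 1 → ∃ p ∈ Bp, p ∣ n := by
    intro n hn hne
    by_contra hcon
    push Not at hcon
    simp only [Rg, mem_filter, mem_Icc] at hn
    obtain ⟨⟨hn1, hn2⟩, hn3, hn4⟩ := hn
    apply hne
    have h2 : ∀ p ∈ n.primeFactorsList, jacobiSym e p = 1 := by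
      intro p hp
      have hpp := Nat.prime_of_mem_primeFactorsList hp
      have hpn := Nat.dvd_of_mem_primeFactorsList hp
      by_contra h3
      refine hcon p ?_ hpn
      rw [hBp, mem_filter, mem_Ioc]
      refine ⟨⟨?_, (Nat.le_of_dvd hn1 hpn).trans hn2⟩, hpp, h3⟩
      by_contra h4
      push Not at h4
      have hp2 : p ≠ 2 := by
        rintro rfl
        rw [← Nat.not_even_iff_odd] at hn3
        exact hn3 (even_iff_two_dvd.2 hpn)
      exact hn4 p (hQz p hpp hp2 h4) hpn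
    have h5 : ∀ l : List ℕ, (∀ p ∈ l, jacobiSym e p = 1 ∧ p ≠ 0) → jacobiSym e l.prod = 1 := by
      intro l
      induction l with
      | nil => intro _; simp
      | cons a l ih =>
        intro hl
        have ha := hl a List.mem_cons_self
        have hl' : ∀ p ∈ l, jacobiSym e p = 1 ∧ p ≠ 0 :=
          fun p hp => hl p (List.mem_cons_of_mem _ hp)
        rw [List.prod_cons]
        haveI : NeZero a := ⟨ha.2⟩
        haveI : NeZero l.prod := ⟨by
          intro h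
          rw [List.prod_eq_zero_iff] at h
          exact (hl' 0 h).2 rfl⟩
        rw [jacobiSym.mul_right, ha.1, ih hl', one_mul]
    have h6 := h5 n.primeFactorsList (fun p hp => ⟨h2 p hp,
      (Nat.prime_of_mem_primeFactorsList hp).ne_zero⟩)
    rwa [Nat.prod_primeFactorsList (by omega)] at h6
  -- count of bad rough numbers
  have h2 : (((Rg Q x).filter (fun n : ℕ => jacobiSym e n ≠ 1)).card : ℝ) ≤
      x * ∑ p ∈ Bp, (1 / (p : ℝ)) := by
    have h3 : (Rg Q x).filter (fun n : ℕ => jacobiSym e n ≠ 1) ⊆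
        Bp.biUnion (fun p => (Icc 1 x).filter (fun n => p ∣ n)) := by
      intro n hn
      rw [mem_filter] at hn
      obtain ⟨p, hp, hpn⟩ := h1 n hn.1 hn.2
      rw [mem_biUnion]
      refine ⟨p, hp, ?_⟩
      rw [mem_filter]
      exact ⟨(mem_filter.1 hn.1).1, hpn⟩
    have h4 : ((Rg Q x).filter (fun n : ℕ => jacobiSym e n ≠ 1)).card ≤
        ∑ p ∈ Bp, ((Icc 1 x).filter (fun n => p ∣ n)).card :=
      (card_le_card h3).trans card_biUnion_le
    have h5 : ∀ p ∈ Bp, (((Icc 1 x).filter (fun n => p ∣ n)).card : ℝ) ≤ x * (1 / (p : ℝ)) := by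
      intro p hp
      have h6 : ((Icc 1 x).filter (fun n => p ∣ n)).card = x / p := by
        have h7 := Nat.card_multiples x p
        have h8 : (Icc 1 x).filter (fun n => p ∣ n) =
            ((range x).filter (fun n => p ∣ n + 1)).image (fun n => n + 1) := by
          ext n
          simp only [mem_filter, mem_Icc, mem_image, mem_range]
          constructor
          · rintro ⟨⟨a, b⟩, c⟩
            refine ⟨n - 1, ⟨by omega, ?_⟩, by omega⟩
            rwa [Nat.sub_add_cancel a]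
          · rintro ⟨m, ⟨a, b⟩, rfl⟩
            exact ⟨⟨by omega, by omega⟩, b⟩
        rw [h8, card_image_of_injective _ (fun a b h => by simpa using h)]
        exact h7
      rw [h6, mul_one_div]
      exact Nat.cast_div_le
    calc (((Rg Q x).filter (fun n : ℕ => jacobiSym e n ≠ 1)).card : ℝ)
        ≤ ((∑ p ∈ Bp, ((Icc 1 x).filter (fun n => p ∣ n)).card : ℕ) : ℝ) := by
          exact_mod_cast h4
      _ = ∑ p ∈ Bp, (((Icc 1 x).filter (fun n => p ∣ n)).card : ℝ) := by push_cast; rfl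
      _ ≤ ∑ p ∈ Bp, x * (1 / (p : ℝ)) := sum_le_sum h5
      _ = _ := by rw [mul_sum]
  -- the sum
  have h3 : (((Rg Q x).card : ℝ)) - 2 * (((Rg Q x).filter (fun n : ℕ => jacobiSym e n ≠ 1)).card : ℝ) ≤
      ((∑ n ∈ Rg Q x, jacobiSym e n : ℤ) : ℝ) := by
    have h4 : ∀ n ∈ Rg Q x, (1 : ℝ) - 2 * (if jacobiSym e n ≠ 1 then 1 else 0) ≤
        (jacobiSym e n : ℝ) := by
      intro n _
      by_cases h : jacobiSym e n = 1
      · rw [if_neg (by simpa using h), h]; norm_num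
      · rw [if_pos h]
        rcases jacobiSym.trichotomy e n with h' | h' | h' <;> rw [h'] <;> norm_num
    have h5 := sum_le_sum h4
    rw [sum_sub_distrib, ← mul_sum, sum_boole] at h5
    push_cast
    simpa using h5
  have h4 : (((Ioc z x).filter (fun p => p.Prime ∧ p ≠ 2)).card : ℝ) ≤ ((Rg Q x).card : ℝ) := by
    have h5 : (Ioc z x).filter (fun p => p.Prime ∧ p ≠ 2) ⊆ Rg Q x := by
      intro p hp
      rw [mem_filter, mem_Ioc] at hp
      simp only [Rg, mem_filter, mem_Icc]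
      refine ⟨⟨hp.2.1.one_lt.le, hp.1.2⟩, hp.2.1.odd_of_ne_two hp.2.2, ?_⟩
      intro r hr hrp
      have h6 := (Nat.prime_dvd_prime_iff_eq (hQ r hr).2 hp.2.1).1 hrp
      have h7 := (hQ r hr).1
      omega
    exact_mod_cast card_le_card h5
  linarith

end Pool.Agent.Helper45.RD6
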